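import Pool.Agent.Helper17.SA.St2

/-!
# Project SA: module QA (the tree group is a 2-group)
-/

set_option autoImplicit false

namespace Pool.Agent.Helper26.SA

open Equiv Pool.Agent.Helper17.SA

theorem dd_le_iff_QA (a b s : ℕ) : dd a b ≤ s ↔ a / 2 ^ s = b / 2 ^ s := by
  unfold dd
  rw [Nat.size_le]
  have h1 : (a ^^^ b) < 2 ^ s ↔ (a ^^^ b) / 2 ^ s = 0 := by
    rw [Nat.div_eq_zero_iff]
    constructor
    · intro h
      exact Or.inr h
    · rintro (h | h)
      · exact absurd h (pow_ne_zero _ two_ne_zero)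
      · exact h
  rw [h1, ← Nat.shiftRight_eq_div_pow, Nat.shiftRight_xor_distrib, Nat.xor_eq_zero_iff,
    Nat.shiftRight_eq_div_pow, Nat.shiftRight_eq_div_pow]

theorem step_QA (m : ℕ) (y : Perm (Fin m)) (hy : y ∈ Q0 m) (s : ℕ)
    (h : ∀ i : Fin m, dd (y i) i ≤ s + 1) (i : Fin m) : dd (y (y i)) i ≤ s := by
  have e : dd (y (y i)) (y i) = dd (y i) i := hy (y i) i
  by_cases h1 : dd (y i) i ≤ s
  · have h2 : dd (y (y i)) (y i) ≤ s := by rw [e]; exact h1
    rw [dd_le_iff_QA] at h1 h2 ⊢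
    exact h2.trans h1
  · have h2 : ¬ dd (y (y i)) (y i) ≤ s := by rw [e]; exact h1
    have h3 := h i
    have h4 : dd (y (y i)) (y i) ≤ s + 1 := by rw [e]; exact h3
    rw [dd_le_iff_QA] at h1 h2 h3 h4 ⊢
    rw [pow_succ, ← Nat.div_div_eq_div_mul, ← Nat.div_div_eq_div_mul] at h3 h4
    omega

theorem pow_QA (m l : ℕ) : ∀ z : Perm (Fin m), z ∈ Q0 m → (∀ i : Fin m, dd (z i) i ≤ l) →
    z ^ 2 ^ l = 1 := by
  induction l with
  | zero =>
    intro z _ h
    rw [pow_zero, pow_one]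
    ext i
    have h1 := h i
    rw [dd_le_iff_QA] at h1
    simpa using h1
  | succ l ih =>
    intro z hz h
    have h1 : (z * z) ^ 2 ^ l = 1 := by
      refine ih (z * z) ((Q0 m).mul_mem hz hz) fun i => ?_
      rw [Perm.mul_apply]
      exact step_QA m z hz l h i
    rw [← h1, ← pow_two, ← pow_mul, pow_succ, mul_comm]

theorem pQA : StQA := by
  intro m g
  refine ⟨Nat.size m, ?_⟩
  apply Subtype.ext
  rw [Subgroup.coe_pow, Subgroup.coe_one]
  refine pow_QA m (Nat.size m) g.1 g.2 fun i => ?_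
  unfold dd
  rw [Nat.size_le]
  have hm : m < 2 ^ Nat.size m := Nat.lt_size_self m
  exact Nat.xor_lt_two_pow (lt_trans (g.1 i).2 hm) (lt_trans i.2 hm)

end Pool.Agent.Helper26.SA
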