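import Pool.Agent.Helper17.SA.St6

/-!
# Project SA, module CRI: a counting criterion for ample groups
-/

set_option autoImplicit false

open scoped Pointwise

namespace Pool.Agent.Helper26.SA

open Equiv Pool.Agent.Helper17.SA

/-- Injectivity of `conj` if the centre is trivial. -/
theorem conj_inj {S : Type} [Group S] (hZ : ∀ z : S, (∀ a : S, z * a = a * z) → z = 1) (x y : S)
    (h : MulAut.conj x = MulAut.conj y) : x = y := by
  have h1 : y⁻¹ * x = 1 := by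
    apply hZ
    intro a
    have h2 : MulAut.conj x a = MulAut.conj y a := by rw [h]
    rw [MulAut.conj_apply, MulAut.conj_apply] at h2
    have h3 : x * a * x⁻¹ * x = y * a * y⁻¹ * x := by rw [h2]
    have h4 : x * a = y * a * y⁻¹ * x := by simpa using h3
    rw [mul_assoc, h4]
    group
  have h2 : y * (y⁻¹ * x) = y * 1 := by rw [h1]
  simpa using h2

/-- An element of prime order. -/
theorem exists_order {A : Type} [Group A] (T : Subgroup A) (q : ℕ) (hq : q.Prime)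
    (hT : IsPGroup q T) (t : A) (ht : t ∈ T) (h1 : t ≠ 1) : ∃ m : ℕ, orderOf (t ^ m) = q := by
  obtain ⟨k, hk⟩ := hT ⟨t, ht⟩
  have hk' : t ^ (q ^ k) = 1 := by
    have := congrArg Subtype.val hk
    simpa using this
  obtain ⟨m, -, hm⟩ := (Nat.dvd_prime_pow hq).1 (orderOf_dvd_of_pow_eq_one hk')
  have hm0 : m ≠ 0 := by
    rintro rfl
    rw [pow_zero] at hm
    exact h1 (orderOf_eq_one_iff.1 hm)
  have hdvd : q ∣ orderOf t := by
    rw [hm]
    exact dvd_pow_self q hm0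
  have hne : orderOf t ≠ 0 := by
    rw [hm]
    exact pow_ne_zero _ hq.pos.ne'
  exact ⟨orderOf t / q, orderOf_pow_orderOf_div hne hdvd⟩

/-- The pairs that are counted twice. -/
abbrev YY (S : Type) [Group S] (T : Subgroup (MulAut S)) (q : ℕ) : Type :=
  {x : MulAut S × S // x.1 ∈ T ∧ orderOf x.1 = q ∧
    MulAut.conj x.2 * x.1 * (MulAut.conj x.2)⁻¹ ∈ T}

/-- Lower bound for the number of pairs. -/
theorem lower (S : Type) [Group S] [Finite S] (T : Subgroup (MulAut S)) (q : ℕ) (hq : q.Prime)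
    (hT : IsPGroup q T) (c : S) :
    (q - 1) * Nat.card {n : S // ∃ t ∈ T, t ≠ 1 ∧
      MulAut.conj (c * n) * t * (MulAut.conj (c * n))⁻¹ ∈ T} ≤ Nat.card (YY S T q) := by
  classical
  have hex : ∀ n : {n : S // ∃ t ∈ T, t ≠ 1 ∧
      MulAut.conj (c * n) * t * (MulAut.conj (c * n))⁻¹ ∈ T}, ∃ t ∈ T, orderOf t = q ∧
        MulAut.conj (c * n.1) * t * (MulAut.conj (c * n.1))⁻¹ ∈ T := by
    rintro ⟨n, t, ht, h1, h2⟩
    obtain ⟨m, hm⟩ := exists_order T q hq hT t ht h1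
    refine ⟨t ^ m, T.pow_mem ht m, hm, ?_⟩
    have : MulAut.conj (c * n) * t ^ m * (MulAut.conj (c * n))⁻¹ =
        (MulAut.conj (c * n) * t * (MulAut.conj (c * n))⁻¹) ^ m := by
      rw [conj_pow]
    rw [this]
    exact T.pow_mem h2 m
  choose f hf1 hf2 hf3 using hex
  have hpow : ∀ (k : Fin (q - 1)) (n : {n : S // ∃ t ∈ T, t ≠ 1 ∧
      MulAut.conj (c * n) * t * (MulAut.conj (c * n))⁻¹ ∈ T}), orderOf (f n ^ (k.1 + 1)) = q := by
    intro k n
    haveI := Fact.mk hq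
    apply orderOf_eq_prime
    · have e : f n ^ q = 1 := by
        have e1 := pow_orderOf_eq_one (f n)
        rwa [hf2 n] at e1
      rw [← pow_mul, mul_comm, pow_mul, e, one_pow]
    · intro h
      have h1 := orderOf_dvd_of_pow_eq_one h
      rw [hf2 n] at h1
      have h2 := Nat.le_of_dvd (Nat.succ_pos _) h1
      have := k.2
      omega
  have hcard : (q - 1) * Nat.card {n : S // ∃ t ∈ T, t ≠ 1 ∧
      MulAut.conj (c * n) * t * (MulAut.conj (c * n))⁻¹ ∈ T} =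
      Nat.card (Fin (q - 1) × {n : S // ∃ t ∈ T, t ≠ 1 ∧
        MulAut.conj (c * n) * t * (MulAut.conj (c * n))⁻¹ ∈ T}) := by
    rw [Nat.card_prod, Nat.card_fin]
  rw [hcard]
  haveI : Finite (MulAut S) := inferInstance
  refine Nat.card_le_card_of_injective (fun x => (⟨(f x.2 ^ (x.1.1 + 1), c * x.2.1),
    T.pow_mem (hf1 _) _, hpow _ _, ?_⟩ : YY S T q)) ?_
  · have : MulAut.conj (c * x.2.1) * f x.2 ^ (x.1.1 + 1) * (MulAut.conj (c * x.2.1))⁻¹ =
        (MulAut.conj (c * x.2.1) * f x.2 * (MulAut.conj (c * x.2.1))⁻¹) ^ (x.1.1 + 1) := by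
      rw [conj_pow]
    show MulAut.conj (c * x.2.1) * f x.2 ^ (x.1.1 + 1) * (MulAut.conj (c * x.2.1))⁻¹ ∈ T
    rw [this]
    exact T.pow_mem (hf3 _) _
  · rintro ⟨k, n⟩ ⟨k', n'⟩ h
    have h1 := congrArg (fun z : YY S T q => z.1.2) h
    have h2 := congrArg (fun z : YY S T q => z.1.1) h
    simp only at h1 h2
    have hn : n = n' := Subtype.ext (mul_left_cancel h1)
    subst hn
    have hk : k.1 + 1 = k'.1 + 1 := by
      apply pow_injOn_Iio_orderOf (x := f n)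
      · rw [Set.mem_Iio, hf2 n]; have := k.2; omega
      · rw [Set.mem_Iio, hf2 n]; have := k'.2; omega
      · exact h2
    have : k = k' := Fin.ext (by omega)
    rw [this]

/-- Upper bound for the number of pairs. -/
theorem upper (S : Type) [Group S] [Finite S]
    (hZ : ∀ z : S, (∀ a : S, z * a = a * z) → z = 1) (T : Subgroup (MulAut S)) (q : ℕ) :
    Nat.card (YY S T q) ≤ mom S T q := by
  classical
  have hch : ∀ y : MulAut S × MulAut S, ∃ n0 : S,
      (∃ a : S, y.2 = MulAut.conj a * y.1 * (MulAut.conj a)⁻¹) →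
        y.2 = MulAut.conj n0 * y.1 * (MulAut.conj n0)⁻¹ := by
    intro y
    by_cases h : ∃ a : S, y.2 = MulAut.conj a * y.1 * (MulAut.conj a)⁻¹
    · obtain ⟨a, ha⟩ := h
      exact ⟨a, fun _ => ha⟩
    · exact ⟨1, fun h' => absurd h' h⟩
  choose g hg using hch
  unfold mom
  haveI : Finite (MulAut S) := inferInstance
  refine Nat.card_le_card_of_injective (fun x : YY S T q =>
    (⟨(x.1.1, MulAut.conj x.1.2 * x.1.1 * (MulAut.conj x.1.2)⁻¹,
      (g (x.1.1, MulAut.conj x.1.2 * x.1.1 * (MulAut.conj x.1.2)⁻¹))⁻¹ * x.1.2),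
      x.2.1, x.2.2.1, x.2.2.2, ⟨x.1.2, rfl⟩, ?_⟩ :
      {x : MulAut S × MulAut S × S // x.1 ∈ T ∧ orderOf x.1 = q ∧ x.2.1 ∈ T ∧
        (∃ a : S, x.2.1 = MulAut.conj a * x.1 * (MulAut.conj a)⁻¹) ∧ x.1 x.2.2 = x.2.2})) ?_
  · obtain ⟨⟨t, n⟩, ht, ho, ht'⟩ := x
    simp only
    set n0 := g (t, MulAut.conj n * t * (MulAut.conj n)⁻¹) with hn0
    have h0 : MulAut.conj n * t * (MulAut.conj n)⁻¹ = MulAut.conj n0 * t * (MulAut.conj n0)⁻¹ :=
      hg (t, MulAut.conj n * t * (MulAut.conj n)⁻¹) ⟨n, rfl⟩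
    have h1 : t * MulAut.conj (n0⁻¹ * n) = MulAut.conj (n0⁻¹ * n) * t := by
      rw [map_mul, map_inv]
      have h2 : (MulAut.conj n0)⁻¹ * (MulAut.conj n * t * (MulAut.conj n)⁻¹) * MulAut.conj n =
          (MulAut.conj n0)⁻¹ * (MulAut.conj n0 * t * (MulAut.conj n0)⁻¹) * MulAut.conj n := by
        rw [h0]
      calc t * ((MulAut.conj n0)⁻¹ * MulAut.conj n) =
          (MulAut.conj n0)⁻¹ * (MulAut.conj n0 * t * (MulAut.conj n0)⁻¹) * MulAut.conj n := by group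
        _ = (MulAut.conj n0)⁻¹ * (MulAut.conj n * t * (MulAut.conj n)⁻¹) * MulAut.conj n := h2.symm
        _ = (MulAut.conj n0)⁻¹ * MulAut.conj n * t := by group
    apply conj_inj hZ
    ext a
    have h3 : (t * MulAut.conj (n0⁻¹ * n)) (t⁻¹ a) = (MulAut.conj (n0⁻¹ * n) * t) (t⁻¹ a) := by
      rw [h1]
    rw [MulAut.mul_apply, MulAut.mul_apply, MulAut.apply_inv_self, MulAut.conj_apply, map_mul,
      map_mul, map_inv, MulAut.apply_inv_self] at h3
    rw [MulAut.conj_apply]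
    exact h3
  · rintro ⟨⟨t, n⟩, h1⟩ ⟨⟨t', n'⟩, h1'⟩ h
    have e1 := congrArg (fun z => z.1.1) h
    have e2 := congrArg (fun z => z.1.2.1) h
    have e3 := congrArg (fun z => z.1.2.2) h
    simp only at e1 e2 e3
    subst e1
    rw [← e2] at e3
    have := mul_left_cancel e3
    subst this
    rfl

/-- **Module CRI.** -/
theorem pCRI : StCRI := by
  classical
  intro S _ _ hZ hyp ι _ p hp hinj T c hT j
  haveI := Fintype.ofFinite ι
  have h0 := hyp ι p hp hinj T hT j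
  set K := kap (p j) * Nat.card (T j) *
    Nat.card {t : MulAut S // t ∈ T j ∧ ∃ a : S, t = MulAut.conj a}
  have hb : ∀ i, Nat.card {n : S // ∃ t ∈ T i, t ≠ 1 ∧
      MulAut.conj (c i * n) * t * (MulAut.conj (c i * n))⁻¹ ∈ T i} ≤
        mom S (T i) (p i) / (p i - 1) := by
    intro i
    rw [Nat.le_div_iff_mul_le (by have := (hp i).two_le; omega), mul_comm]
    exact (lower S (T i) (p i) (hp i) (hT i) (c i)).trans (upper S hZ (T i) (p i))
  haveI := Fintype.ofFinite S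
  have hcov : Nat.card S ≤ Nat.card {n : S // ∀ i, ∀ t ∈ T i,
      MulAut.conj (c i * n) * t * (MulAut.conj (c i * n))⁻¹ ∈ T i → t = 1} +
      ∑ i, Nat.card {n : S // ∃ t ∈ T i, t ≠ 1 ∧
        MulAut.conj (c i * n) * t * (MulAut.conj (c i * n))⁻¹ ∈ T i} := by
    have hsum : ∑ i, Nat.card {n : S // ∃ t ∈ T i, t ≠ 1 ∧
        MulAut.conj (c i * n) * t * (MulAut.conj (c i * n))⁻¹ ∈ T i} =
        Nat.card (Σ i, {n : S // ∃ t ∈ T i, t ≠ 1 ∧
          MulAut.conj (c i * n) * t * (MulAut.conj (c i * n))⁻¹ ∈ T i}) := by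
      rw [Nat.card_sigma]
    rw [hsum, ← Nat.card_sum]
    refine Nat.card_le_card_of_surjective (fun x : {n : S // ∀ i, ∀ t ∈ T i,
      MulAut.conj (c i * n) * t * (MulAut.conj (c i * n))⁻¹ ∈ T i → t = 1} ⊕
      (Σ i, {n : S // ∃ t ∈ T i, t ≠ 1 ∧
          MulAut.conj (c i * n) * t * (MulAut.conj (c i * n))⁻¹ ∈ T i}) =>
      Sum.elim (fun a => a.1) (fun a => a.2.1) x) ?_
    intro n
    by_cases h : ∀ i, ∀ t ∈ T i,
      MulAut.conj (c i * n) * t * (MulAut.conj (c i * n))⁻¹ ∈ T i → t = 1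
    · exact ⟨Sum.inl ⟨n, h⟩, rfl⟩
    · push Not at h
      obtain ⟨i, t, ht, h1, h2⟩ := h
      exact ⟨Sum.inr ⟨i, ⟨n, t, ht, h2, h1⟩⟩, rfl⟩
  have hs : ∑ i, Nat.card {n : S // ∃ t ∈ T i, t ≠ 1 ∧
      MulAut.conj (c i * n) * t * (MulAut.conj (c i * n))⁻¹ ∈ T i} ≤
      ∑ i, mom S (T i) (p i) / (p i - 1) := Finset.sum_le_sum fun i _ => hb i
  omega

end Pool.Agent.Helper26.SA
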